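import Mathlib

/-!
# MP_135240_an: ergodic Lebesgue differentiation fails for integrable functions

We build a compact ultrametric space with a Borel probability measure (so the Hardy-Littlewood
property holds), an isometric measure preserving homeomorphism `T`, and a nonnegative `f ∈ L¹`
with `limsup_{r → 0, k → ∞} U_{r,k} f (x) = ∞` for almost every `x`.
-/

open MeasureTheory Filter Topology Set
open scoped ENNReal

namespace Pool.Agent.Results.MP_135240_an.ErgodicDifferentiation

/-- Ergodic average `A_k f = (1/k) ∑_{j<k} f ∘ T^j`. -/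
noncomputable def ergAvg {X : Type*} (T : X → X) (f : X → ℝ) (k : ℕ) (x : X) : ℝ :=
  (k : ℝ)⁻¹ * ∑ j ∈ Finset.range k, f (T^[j] x)

/-- `U_{r,k} f (x)`: the mean of `A_k f` over the open ball `B(x,r)`. -/
noncomputable def ballErgAvg {X : Type*} [MetricSpace X] [MeasurableSpace X] (μ : Measure X)
    (T : X → X) (f : X → ℝ) (r : ℝ) (k : ℕ) (x : X) : ℝ :=
  (μ.real (Metric.ball x r))⁻¹ * ∫ y in Metric.ball x r, ergAvg T f k y ∂μ

/-- The centred maximal function `H^* f`. -/
noncomputable def maxFn {X : Type*} [MetricSpace X] [MeasurableSpace X] (μ : Measure X)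
    (f : X → ℝ) (x : X) : ℝ≥0∞ :=
  ⨆ (r : ℝ) (_ : 0 < r), (μ (Metric.ball x r))⁻¹ * ∫⁻ y in Metric.ball x r, ‖f y‖ₑ ∂μ

/-- The Hardy-Littlewood property: `H^*` is of weak type `(1,1)`. -/
def HardyLittlewood {X : Type*} [MetricSpace X] [MeasurableSpace X] (μ : Measure X) : Prop :=
  ∃ C : ℝ, 1 ≤ C ∧ ∀ f : X → ℝ, Integrable f μ → ∀ ε : ℝ, 0 < ε →
    ENNReal.ofReal ε * μ {x | ENNReal.ofReal ε ≤ maxFn μ f x} ≤
      ENNReal.ofReal C * ∫⁻ y, ‖f y‖ₑ ∂μ

section ultra

variable {X : Type*} [MetricSpace X]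

lemma ball_sub_of_inter (hu : ∀ x y z : X, dist x z ≤ max (dist x y) (dist y z))
    {x y : X} {r s : ℝ} (hs : s ≤ r) (h : ¬ Disjoint (Metric.ball y s) (Metric.ball x r)) :
    Metric.ball y s ⊆ Metric.ball x r := by
  rw [Set.not_disjoint_iff] at h
  obtain ⟨z, hz1, hz2⟩ := h
  rw [Metric.mem_ball] at hz1 hz2
  intro w hw
  rw [Metric.mem_ball] at hw ⊢
  have h1 : dist y x < r := by
    refine lt_of_le_of_lt (hu y z x) (max_lt ?_ hz2)
    rw [dist_comm]; exact lt_of_lt_of_le hz1 hs
  exact lt_of_le_of_lt (hu w y x) (max_lt (lt_of_lt_of_le hw hs) h1)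

variable [MeasurableSpace X] [BorelSpace X]

lemma finite_cover (hu : ∀ x y z : X, dist x z ≤ max (dist x y) (dist y z))
    (μ : Measure X) (g : X → ℝ≥0∞) (a : ℝ≥0∞) (r : X → ℝ)
    (F : Finset X) : (∀ x ∈ F, 0 < r x) →
    (∀ x ∈ F, a * μ (Metric.ball x (r x)) ≤ ∫⁻ y in Metric.ball x (r x), g y ∂μ) →
    a * μ (⋃ x ∈ F, Metric.ball x (r x)) ≤ ∫⁻ y in ⋃ x ∈ F, Metric.ball x (r x), g y ∂μ := by
  classical
  induction F using Finset.strongInduction with
  | H F ih =>
    intro hr hF
    rcases F.eq_empty_or_nonempty with rfl | hne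
    · simp
    obtain ⟨x, hxF, hx⟩ := F.exists_max_image r hne
    set F' := F.filter (fun y => Disjoint (Metric.ball y (r y)) (Metric.ball x (r x))) with hF'
    have hxF' : x ∉ F' := by
      intro h
      rw [hF', Finset.mem_filter] at h
      exact Set.disjoint_left.mp h.2 (Metric.mem_ball_self (hr x hxF))
        (Metric.mem_ball_self (hr x hxF))
    have hsub : F' ⊂ F := by
      refine Finset.ssubset_iff_subset_ne.mpr ⟨Finset.filter_subset _ _, ?_⟩
      intro h
      exact hxF' (h ▸ hxF)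
    have hU : (⋃ y ∈ F, Metric.ball y (r y)) =
        Metric.ball x (r x) ∪ ⋃ y ∈ F', Metric.ball y (r y) := by
      ext w
      simp only [Set.mem_iUnion, Set.mem_union, exists_prop]
      constructor
      · rintro ⟨y, hy, hw⟩
        by_cases hd : Disjoint (Metric.ball y (r y)) (Metric.ball x (r x))
        · exact Or.inr ⟨y, by rw [hF', Finset.mem_filter]; exact ⟨hy, hd⟩, hw⟩
        · exact Or.inl (ball_sub_of_inter hu (hx y hy) hd hw)
      · rintro (hw | ⟨y, hy, hw⟩)
        · exact ⟨x, hxF, hw⟩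
        · exact ⟨y, (Finset.mem_filter.mp hy).1, hw⟩
    have hdisj : Disjoint (Metric.ball x (r x)) (⋃ y ∈ F', Metric.ball y (r y)) := by
      rw [Set.disjoint_iUnion₂_right]
      intro y hy
      exact (Finset.mem_filter.mp hy).2.symm
    have hmeas : MeasurableSet (⋃ y ∈ F', Metric.ball y (r y)) :=
      (isOpen_biUnion fun y _ => Metric.isOpen_ball).measurableSet
    rw [hU, measure_union hdisj hmeas, lintegral_union hmeas hdisj, mul_add]
    exact add_le_add (hF x hxF) (ih F' hsub (fun y hy => hr y (hsub.1 hy))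
      (fun y hy => hF y (hsub.1 hy)))

theorem hl_of_ultra [SecondCountableTopology X]
    (hu : ∀ x y z : X, dist x z ≤ max (dist x y) (dist y z)) (μ : Measure X)
    [IsProbabilityMeasure μ] : HardyLittlewood μ := by
  classical
  refine ⟨2, by norm_num, fun f hf ε hε => ?_⟩
  set a := ENNReal.ofReal (ε / 2) with ha
  set E := {x | ENNReal.ofReal ε ≤ maxFn μ f x} with hE
  have hlt : a < ENNReal.ofReal ε := by
    rw [ha]; exact (ENNReal.ofReal_lt_ofReal_iff hε).mpr (by linarith)
  have key : ∀ x ∈ E, ∃ r : ℝ, 0 < r ∧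
      a * μ (Metric.ball x r) ≤ ∫⁻ y in Metric.ball x r, ‖f y‖ₑ ∂μ := by
    intro x hx
    have h1 : a < maxFn μ f x := lt_of_lt_of_le hlt hx
    unfold maxFn at h1
    rw [lt_iSup_iff] at h1
    obtain ⟨r, h1⟩ := h1
    rw [lt_iSup_iff] at h1
    obtain ⟨hr, h1⟩ := h1
    refine ⟨r, hr, ?_⟩
    rcases eq_or_ne (μ (Metric.ball x r)) 0 with h0 | h0
    · rw [h0]; simp
    · calc a * μ (Metric.ball x r)
          ≤ ((μ (Metric.ball x r))⁻¹ * ∫⁻ y in Metric.ball x r, ‖f y‖ₑ ∂μ) *
            μ (Metric.ball x r) := by gcongr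
        _ = ((μ (Metric.ball x r))⁻¹ * μ (Metric.ball x r)) *
            ∫⁻ y in Metric.ball x r, ‖f y‖ₑ ∂μ := by ring
        _ = _ := by rw [ENNReal.inv_mul_cancel h0 (measure_ne_top _ _), one_mul]
  choose! r hr hra using key
  -- countable subcover
  obtain ⟨S, hSE, hSc, hSU⟩ := TopologicalSpace.isOpen_biUnion_countable E
    (fun x => Metric.ball x (r x)) (fun x _ => Metric.isOpen_ball)
  have hEsub : E ⊆ ⋃ x ∈ S, Metric.ball x (r x) := by
    rw [hSU]
    intro x hx
    exact Set.mem_biUnion hx (Metric.mem_ball_self (hr x hx))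
  have hcov : a * μ (⋃ x ∈ S, Metric.ball x (r x)) ≤ ∫⁻ y, ‖f y‖ₑ ∂μ := by
    rcases S.eq_empty_or_nonempty with rfl | hne
    · simp
    obtain ⟨e, he⟩ := hSc.exists_eq_range hne
    have h2 : (⋃ x ∈ S, Metric.ball x (r x)) = ⋃ n : ℕ, Metric.ball (e n) (r (e n)) := by
      rw [he]; simp
    rw [h2, measure_iUnion_eq_iSup_accumulate, ENNReal.mul_iSup]
    refine iSup_le fun n => ?_
    have h3 : Set.accumulate (fun n : ℕ => Metric.ball (e n) (r (e n))) n =
        ⋃ x ∈ (Finset.range (n+1)).image e, Metric.ball x (r x) := by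
      ext w
      simp [Set.mem_accumulate]
    rw [h3]
    refine (finite_cover hu μ (fun y => ‖f y‖ₑ) a r _ ?_ ?_).trans (setLIntegral_le_lintegral _ _)
    · intro x hx
      obtain ⟨i, -, rfl⟩ := Finset.mem_image.mp hx
      exact hr _ (hSE (he ▸ Set.mem_range_self i))
    · intro x hx
      obtain ⟨i, -, rfl⟩ := Finset.mem_image.mp hx
      exact hra _ (hSE (he ▸ Set.mem_range_self i))
  have h2a : ENNReal.ofReal ε = ENNReal.ofReal 2 * a := by
    rw [ha, ← ENNReal.ofReal_mul (by norm_num)]; congr 1; ring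
  rw [h2a, mul_assoc]
  gcongr
  exact (by gcongr : a * μ E ≤ a * μ (⋃ x ∈ S, Metric.ball x (r x))).trans hcov

end ultra

section space

/-- Number of binary digits used at stage `m`. -/
def L (m : ℕ) : ℕ := 2 ^ (m + 3) * (m + 1)

/-- Minimal length of the orbit segments used at stage `m`. -/
def H (m : ℕ) : ℕ := 2 ^ m

/-- Period of the rotations of stage `m`. -/
def N (m : ℕ) : ℕ := 2 ^ (L m + 2 * m + 2)

instance (m : ℕ) : NeZero (N m) := ⟨by unfold N; positivity⟩

/-- The finite group of rotations of stage `m`. -/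
abbrev C (m : ℕ) : Type := (Fin (L m) → Bool) → ZMod (N m)

/-- The `m`-th coordinate space: one binary digit `d` and the rotations `c` of stage `m`. -/
structure E (m : ℕ) where
  d : Bool
  c : C m

/-- `E m` is the product. -/
def E.equiv (m : ℕ) : E m ≃ Bool × C m where
  toFun e := (e.d, e.c)
  invFun p := ⟨p.1, p.2⟩
  left_inv _ := rfl
  right_inv _ := rfl

noncomputable instance (m : ℕ) : Fintype (E m) := Fintype.ofEquiv _ (E.equiv m).symm
instance (m : ℕ) : Nonempty (E m) := ⟨⟨true, fun _ => 0⟩⟩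
instance (m : ℕ) : TopologicalSpace (E m) := ⊥
instance (m : ℕ) : DiscreteTopology (E m) := ⟨rfl⟩
instance (m : ℕ) : MeasurableSpace (E m) := ⊤
instance (m : ℕ) : DiscreteMeasurableSpace (E m) := ⟨fun _ => trivial⟩

/-- Uniform probability on the `m`-th coordinate space. -/
noncomputable def nu (m : ℕ) : Measure (E m) :=
  (Fintype.card (E m) : ℝ≥0∞)⁻¹ • Measure.count

lemma card_ne (m : ℕ) : (Fintype.card (E m) : ℝ≥0∞) ≠ 0 := by
  simp [Fintype.card_ne_zero]

lemma nu_finset (m : ℕ) (s : Finset (E m)) :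
    nu m (s : Set (E m)) = (Fintype.card (E m) : ℝ≥0∞)⁻¹ * s.card := by
  simp [nu]

instance (m : ℕ) : IsProbabilityMeasure (nu m) := by
  constructor
  have := nu_finset m Finset.univ
  rw [Finset.coe_univ] at this
  rw [this, Finset.card_univ]
  exact ENNReal.inv_mul_cancel (card_ne m) (ENNReal.natCast_ne_top _)

lemma card_E (m : ℕ) : Fintype.card (E m) = 2 * Fintype.card (C m) := by
  rw [Fintype.card_congr (E.equiv m), Fintype.card_prod, Fintype.card_bool]

lemma nu_digit (m : ℕ) (b : Bool) : nu m {e | e.d = b} = 2⁻¹ := by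
  classical
  have h1 : ({e | e.d = b} : Set (E m)) =
      (((({b} : Finset Bool) ×ˢ (Finset.univ : Finset (C m))).map
        (E.equiv m).symm.toEmbedding : Finset (E m)) : Set (E m)) := by
    ext e
    simp [E.equiv]
    constructor
    · rintro rfl; exact ⟨e.c, rfl⟩
    · rintro ⟨c, rfl⟩; rfl
  rw [h1, nu_finset, card_E, Finset.card_map, Finset.card_product]
  have h3 : (Fintype.card (C m) : ℝ≥0∞) ≠ 0 := Nat.cast_ne_zero.mpr Fintype.card_ne_zero
  have h4 : (Fintype.card (C m) : ℝ≥0∞) ≠ ⊤ := ENNReal.natCast_ne_top _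
  rw [Finset.card_singleton, Finset.card_univ, one_mul]
  push_cast
  rw [ENNReal.mul_inv (Or.inl (by norm_num)) (Or.inl (by norm_num)), mul_assoc,
    ENNReal.inv_mul_cancel h3 h4, mul_one]

lemma nu_rot (m : ℕ) (D : Finset (C m)) :
    nu m {e | e.c ∈ D} = (D.card : ℝ≥0∞) / Fintype.card (C m) := by
  classical
  have h1 : ({e | e.c ∈ D} : Set (E m)) =
      (((Finset.univ : Finset Bool) ×ˢ D).map
        (E.equiv m).symm.toEmbedding : Finset (E m)) := by
    ext e
    simp only [Set.mem_ofPred_eq, Finset.coe_map, Set.mem_image, Finset.mem_coe,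
      Finset.mem_product, Finset.mem_univ, true_and]
    constructor
    · intro h; exact ⟨(e.d, e.c), h, rfl⟩
    · rintro ⟨q, hq, rfl⟩; exact hq
  rw [h1, nu_finset, card_E, Finset.card_map, Finset.card_product, Finset.card_univ,
    Fintype.card_bool]
  push_cast
  rw [ENNReal.mul_inv (Or.inl (by norm_num)) (Or.inl (by norm_num)), ENNReal.div_eq_inv_mul]
  calc (2 : ℝ≥0∞)⁻¹ * (Fintype.card (C m) : ℝ≥0∞)⁻¹ * (2 * (D.card : ℝ≥0∞))
      = (2⁻¹ * 2) * ((Fintype.card (C m) : ℝ≥0∞)⁻¹ * (D.card : ℝ≥0∞)) := by ring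
    _ = _ := by rw [ENNReal.inv_mul_cancel (by norm_num) (by norm_num), one_mul]

/-- The space: infinite product of the coordinate spaces. -/
abbrev X : Type := ∀ m, E m

/-- Product measure. -/
noncomputable abbrev mu : Measure X := Measure.infinitePi nu

/-- Rotation on the `m`-th coordinate. -/
def dec (m : ℕ) (e : E m) : E m := ⟨e.d, fun t => e.c t - 1⟩

/-- The transformation. -/
def T (x : X) : X := fun m => dec m (x m)

lemma dec_bij (m : ℕ) : Function.Bijective (dec m) := by
  have hinj : Function.Injective (dec m) := by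
    intro e e' h
    have h1 : (dec m e).d = (dec m e').d := congrArg E.d h
    have h2 : (dec m e).c = (dec m e').c := congrArg E.c h
    change e.d = e'.d at h1
    change (fun t => e.c t - 1) = (fun t => e'.c t - 1) at h2
    have h3 : e.c = e'.c := by
      funext t
      have := congrFun h2 t
      simpa using this
    cases e; cases e'; simp_all
  exact Finite.injective_iff_bijective.mp hinj

lemma dec_map (m : ℕ) : (nu m).map (dec m) = nu m := by
  ext s hs
  rw [Measure.map_apply (measurable_of_countable _) hs]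
  unfold nu
  simp only [Measure.smul_apply, smul_eq_mul]
  congr 1
  rw [Measure.count_apply hs, Measure.count_apply ((measurable_of_countable (dec m)) hs)]
  congr 1
  exact Set.encard_preimage_of_bijective (dec_bij m) s

lemma T_mp : MeasurePreserving T mu mu := by
  constructor
  · exact measurable_pi_lambda _ fun m => (measurable_of_countable _).comp (measurable_pi_apply m)
  · have := Measure.infinitePi_map_pi (μ := nu) (f := dec) (fun i => measurable_of_countable _)
    simp_rw [dec_map] at this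
    exact this

lemma T_iter (j : ℕ) (x : X) (m : ℕ) :
    ((T^[j] x) m).d = (x m).d ∧ ∀ t, ((T^[j] x) m).c t = (x m).c t - (j : ZMod (N m)) := by
  induction j generalizing x with
  | zero => simp
  | succ j ih =>
    rw [Function.iterate_succ_apply]
    obtain ⟨h1, h2⟩ := ih (T x)
    refine ⟨h1.trans rfl, fun t => ?_⟩
    rw [h2 t]
    have : (T x m).c t = (x m).c t - 1 := rfl
    rw [this]; push_cast; ring

/-- Mass of a set described by the first `n` coordinates and the next `q` digits. -/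
lemma mass (n q : ℕ) (A : ∀ l, Set (E l)) (d : ℕ → Bool) :
    mu {x | (∀ l < n, x l ∈ A l) ∧ ∀ l, n ≤ l → l < n + q → (x l).d = d l} =
      (∏ l ∈ Finset.range n, nu l (A l)) * 2⁻¹ ^ q := by
  classical
  have h1 : {x : X | (∀ l < n, x l ∈ A l) ∧ ∀ l, n ≤ l → l < n + q → (x l).d = d l} =
      Set.pi (Finset.range (n + q) : Set ℕ) (fun l => if l < n then A l else {e | e.d = d l}) := by
    ext x
    simp only [Set.mem_ofPred_eq, Set.mem_pi, Finset.coe_range, Set.mem_Iio]
    constructor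
    · rintro ⟨ha, hb⟩ l hl
      by_cases h : l < n
      · rw [if_pos h]; exact ha l h
      · rw [if_neg h]; exact hb l (not_lt.mp h) hl
    · intro h
      refine ⟨fun l hl => ?_, fun l hl hl' => ?_⟩
      · have := h l (by omega)
        rwa [if_pos hl] at this
      · have := h l hl'
        rwa [if_neg (not_lt.mpr hl)] at this
  rw [h1, Measure.infinitePi_pi _ (fun _ _ => MeasurableSet.of_discrete), Finset.prod_range_add]
  congr 1
  · refine Finset.prod_congr rfl fun l hl => ?_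
    rw [if_pos (Finset.mem_range.mp hl)]
  · rw [← Finset.card_range q, ← Finset.prod_const]
    rw [Finset.card_range]
    refine Finset.prod_congr rfl fun l hl => ?_
    rw [if_neg (by omega)]
    exact nu_digit _ _

/-- The digits read at stage `m`. -/
def dig (m : ℕ) (x : X) : Fin (L m) → Bool := fun i => (x (m + 1 + i)).d

lemma mass1 (m : ℕ) (D : Set (E m)) (t : Fin (L m) → Bool) :
    mu {x | x m ∈ D ∧ dig m x = t} = nu m D * 2⁻¹ ^ (L m) := by
  classical
  have h := mass (m + 1) (L m) (Function.update (fun l => Set.univ) m D)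
    (fun l => if h : l - (m + 1) < L m then t ⟨l - (m + 1), h⟩ else false)
  rw [Finset.prod_range_succ, Function.update_self] at h
  have h2 : ∏ l ∈ Finset.range m, nu l (Function.update (fun l => Set.univ) m D l) = 1 := by
    refine Finset.prod_eq_one fun l hl => ?_
    rw [Function.update_of_ne (Finset.mem_range.mp hl).ne]
    exact measure_univ
  rw [h2, one_mul] at h
  rw [← h]
  congr 1
  ext x
  simp only [Set.mem_ofPred_eq]
  constructor
  · rintro ⟨hx, hd⟩
    refine ⟨fun l hl => ?_, fun l hl hl' => ?_⟩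
    · rcases eq_or_ne l m with rfl | hne
      · rw [Function.update_self]; exact hx
      · rw [Function.update_of_ne hne]; exact Set.mem_univ _
    · have h3 : l - (m + 1) < L m := by omega
      rw [dif_pos h3, ← hd]
      unfold dig
      have h5 : ∀ a b, a = b → (x a).d = (x b).d := by rintro a b rfl; rfl
      exact h5 _ _ (by simp only; omega)
  · rintro ⟨ha, hb⟩
    refine ⟨?_, ?_⟩
    · have := ha m (by omega)
      rwa [Function.update_self] at this
    · funext i
      have := hb (m + 1 + i) (by omega) (by have := i.2; omega)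
      rw [dif_pos (by have := i.2; omega)] at this
      unfold dig
      rw [this]
      congr 1
      ext
      simp

/-- The marked set of stage `m`. -/
def S (m : ℕ) : Set X := {x | (x m).c (dig m x) = 0}

lemma dig_meas (m : ℕ) : Measurable (dig m) := by
  refine measurable_pi_lambda _ fun i => ?_
  exact (measurable_of_countable (fun e : E (m + 1 + i) => e.d)).comp (measurable_pi_apply _)

lemma set_meas (m : ℕ) (D : Set (E m)) (t : Fin (L m) → Bool) :
    MeasurableSet {x : X | x m ∈ D ∧ dig m x = t} := by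
  refine MeasurableSet.inter ?_ ?_
  · exact (measurable_pi_apply m) (MeasurableSet.of_discrete (s := D))
  · exact (dig_meas m) (measurableSet_singleton t)

lemma S_eq (m : ℕ) : S m = ⋃ t : Fin (L m) → Bool,
    {x : X | x m ∈ {e : E m | e.c t = 0} ∧ dig m x = t} := by
  ext x
  simp only [S, Set.mem_iUnion, Set.mem_ofPred_eq]
  constructor
  · intro h; exact ⟨dig m x, h, rfl⟩
  · rintro ⟨t, h, rfl⟩; exact h

lemma S_meas (m : ℕ) : MeasurableSet (S m) := by
  rw [S_eq]
  exact MeasurableSet.iUnion fun t => set_meas m _ t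

lemma card_C (m : ℕ) : Fintype.card (C m) = N m ^ (2 ^ L m) := by
  rw [Fintype.card_fun, ZMod.card, Fintype.card_fun, Fintype.card_bool, Fintype.card_fin]

lemma nu_zero (m : ℕ) (t : Fin (L m) → Bool) : nu m {e | e.c t = 0} = (N m : ℝ≥0∞)⁻¹ := by
  classical
  set D : Finset (C m) := Fintype.piFinset
    (fun t' => if t' = t then {0} else (Finset.univ : Finset (ZMod (N m)))) with hD
  have h1 : {e : E m | e.c t = 0} = {e | e.c ∈ D} := by
    ext e
    simp only [Set.mem_ofPred_eq, hD, Fintype.mem_piFinset]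
    constructor
    · intro h t'
      by_cases h2 : t' = t
      · subst h2; simp [h]
      · simp [h2]
    · intro h
      have := h t
      simpa using this
  have hN : (N m : ℝ≥0∞) ≠ 0 := Nat.cast_ne_zero.mpr (NeZero.ne _)
  rw [h1, nu_rot, hD, Fintype.card_piFinset, card_C]
  have h2 : ∏ t' : Fin (L m) → Bool,
      (if t' = t then {0} else (Finset.univ : Finset (ZMod (N m)))).card =
      ∏ t' ∈ Finset.univ.erase t, N m := by
    rw [← Finset.mul_prod_erase Finset.univ _ (Finset.mem_univ t)]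
    rw [if_pos rfl, Finset.card_singleton, one_mul]
    refine Finset.prod_congr rfl fun t' ht' => ?_
    rw [if_neg (Finset.ne_of_mem_erase ht'), Finset.card_univ, ZMod.card]
  rw [h2, Finset.prod_const, Finset.card_erase_of_mem (Finset.mem_univ t), Finset.card_univ,
    Fintype.card_fun, Fintype.card_bool, Fintype.card_fin]
  obtain ⟨q, hq⟩ : ∃ q, 2 ^ L m = q + 1 := ⟨2 ^ L m - 1, by have := Nat.two_pow_pos (L m); omega⟩
  rw [hq, Nat.add_sub_cancel]
  push_cast
  rw [pow_succ, ENNReal.div_eq_inv_mul, ENNReal.mul_inv (Or.inr (ENNReal.natCast_ne_top _))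
    (Or.inr hN)]
  rw [mul_comm ((N m : ℝ≥0∞) ^ q)⁻¹, mul_assoc, ENNReal.inv_mul_cancel (pow_ne_zero _ hN)
    (ENNReal.pow_ne_top (ENNReal.natCast_ne_top _)), mul_one]

lemma sum_digits (m : ℕ) (a : ℝ≥0∞) :
    ∑ _t : Fin (L m) → Bool, a * 2⁻¹ ^ (L m) = a := by
  rw [Finset.sum_const, Finset.card_univ, Fintype.card_fun, Fintype.card_bool, Fintype.card_fin,
    nsmul_eq_mul]
  push_cast
  rw [mul_left_comm, ← mul_pow, ENNReal.mul_inv_cancel (by norm_num) (by norm_num), one_pow,
    mul_one]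

lemma S_mass (m : ℕ) : mu (S m) ≤ (N m : ℝ≥0∞)⁻¹ := by
  rw [S_eq]
  refine (measure_iUnion_le _).trans ?_
  rw [tsum_fintype]
  calc ∑ t : Fin (L m) → Bool, mu {x : X | x m ∈ {e : E m | e.c t = 0} ∧ dig m x = t}
      = ∑ t : Fin (L m) → Bool, (N m : ℝ≥0∞)⁻¹ * 2⁻¹ ^ (L m) := by
        refine Finset.sum_congr rfl fun t _ => ?_
        rw [mass1, nu_zero]
    _ = _ := sum_digits m _
    _ ≤ _ := le_rfl

/-- rotation values with `2^l H ≤ v < 2^(l+1) H`. -/
def J (m l : ℕ) : Finset (ZMod (N m)) :=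
  (Finset.Ico (2 ^ l * H m) (2 ^ (l + 1) * H m)).image (Nat.cast : ℕ → ZMod (N m))

lemma le_N {m l : ℕ} (hl : l < L m) : 2 ^ (l + 1) * H m ≤ N m := by
  unfold H N
  rw [← pow_add]
  exact Nat.pow_le_pow_right (by norm_num) (by omega)

lemma mem_J {m l : ℕ} (hl : l < L m) (v : ZMod (N m)) :
    v ∈ J m l ↔ 2 ^ l * H m ≤ v.val ∧ v.val < 2 ^ (l + 1) * H m := by
  unfold J
  rw [Finset.mem_image]
  constructor
  · rintro ⟨n, hn, rfl⟩
    rw [Finset.mem_Ico] at hn
    rw [ZMod.val_cast_of_lt (lt_of_lt_of_le hn.2 (le_N hl))]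
    exact hn
  · intro h
    exact ⟨v.val, Finset.mem_Ico.mpr h, ZMod.natCast_zmod_val v⟩

lemma card_J {m l : ℕ} (hl : l < L m) : (J m l).card = 2 ^ l * H m := by
  unfold J
  rw [Finset.card_image_of_injOn, Nat.card_Ico, pow_succ]
  · have : 2 ^ l * 2 * H m = 2 ^ l * H m + 2 ^ l * H m := by ring
    omega
  · intro a ha b hb hab
    rw [Finset.coe_Ico, Set.mem_Ico] at ha hb
    have h := congrArg ZMod.val hab
    rwa [ZMod.val_cast_of_lt (lt_of_lt_of_le ha.2 (le_N hl)),
      ZMod.val_cast_of_lt (lt_of_lt_of_le hb.2 (le_N hl))] at h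

open Classical in
/-- good rotation values for the pair of digit words `b, t`. -/
noncomputable def G (m : ℕ) (b t : Fin (L m) → Bool) : Finset (ZMod (N m)) :=
  ((Finset.range (L m)).filter (fun l => ∀ i : Fin (L m), (i : ℕ) ≤ l → t i = b i)).biUnion (J m)

lemma card_G (m : ℕ) (b t : Fin (L m) → Bool) :
    (G m b t).card = ∑ l ∈ Finset.range (L m),
      open Classical in if (∀ i : Fin (L m), (i : ℕ) ≤ l → t i = b i) then 2 ^ l * H m else 0 := by
  classical
  unfold G
  rw [Finset.card_biUnion, Finset.sum_filter]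
  · refine Finset.sum_congr rfl fun l hl => ?_
    rw [card_J (Finset.mem_range.mp hl)]
  · intro l hl l' hl' hne
    rw [Finset.mem_coe, Finset.mem_filter, Finset.mem_range] at hl hl'
    change Disjoint (J m l) (J m l')
    rw [Finset.disjoint_left]
    intro v hv hv'
    rw [mem_J hl.1] at hv
    rw [mem_J hl'.1] at hv'
    have hH : 0 < H m := by unfold H; positivity
    rcases lt_or_gt_of_ne hne with h | h
    · have : 2 ^ (l + 1) * H m ≤ 2 ^ l' * H m :=
        Nat.mul_le_mul_right _ (Nat.pow_le_pow_right (by norm_num) h)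
      omega
    · have : 2 ^ (l' + 1) * H m ≤ 2 ^ l * H m :=
        Nat.mul_le_mul_right _ (Nat.pow_le_pow_right (by norm_num) h)
      omega

lemma count_agree (m l : ℕ) (hl : l < L m) (b : Fin (L m) → Bool) :
    (open Classical in (Finset.univ.filter (fun t : Fin (L m) → Bool =>
      ∀ i : Fin (L m), (i : ℕ) ≤ l → t i = b i)).card) = 2 ^ (L m - l - 1) := by
  classical
  have h1 : (Finset.univ.filter (fun t : Fin (L m) → Bool =>
      ∀ i : Fin (L m), (i : ℕ) ≤ l → t i = b i)) =
      Fintype.piFinset (fun i : Fin (L m) => if (i : ℕ) ≤ l then {b i} else Finset.univ) := by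
    ext t
    simp only [Finset.mem_filter, Finset.mem_univ, true_and, Fintype.mem_piFinset]
    constructor
    · intro h i
      by_cases hi : (i : ℕ) ≤ l
      · simp [hi, h i hi]
      · simp [hi]
    · intro h i hi
      have := h i
      simpa [hi] using this
  rw [h1, Fintype.card_piFinset]
  have h2 : ∀ i : Fin (L m), (if (i : ℕ) ≤ l then {b i} else (Finset.univ : Finset Bool)).card =
      if (i : ℕ) ≤ l then 1 else 2 := by
    intro i
    split_ifs <;> simp
  rw [Finset.prod_congr rfl (fun i _ => h2 i)]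
  rw [Fin.prod_univ_eq_prod_range (fun i => if i ≤ l then 1 else 2) (L m)]
  obtain ⟨q, hq⟩ : ∃ q, L m = (l + 1) + q := ⟨L m - (l + 1), by omega⟩
  rw [hq, Finset.prod_range_add]
  rw [Finset.prod_eq_one (fun i hi => if_pos (by have := Finset.mem_range.mp hi; omega))]
  rw [Finset.prod_congr rfl (fun i _ => if_neg (by omega : ¬ (l + 1 + i ≤ l)))]
  rw [Finset.prod_const, Finset.card_range, one_mul]
  congr 1
  omega

lemma sum_card_G (m : ℕ) (b : Fin (L m) → Bool) :
    ∑ t : Fin (L m) → Bool, (G m b t).card = (m + 1) * N m := by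
  classical
  simp_rw [card_G]
  rw [Finset.sum_comm]
  have h1 : ∀ l ∈ Finset.range (L m), (∑ t : Fin (L m) → Bool,
      (if (∀ i : Fin (L m), (i : ℕ) ≤ l → t i = b i) then 2 ^ l * H m else 0)) =
      2 ^ (L m - 1) * H m := by
    intro l hl
    have hl' := Finset.mem_range.mp hl
    rw [← Finset.sum_filter, Finset.sum_const, count_agree m l hl' b, smul_eq_mul, ← mul_assoc,
      ← pow_add]
    congr 2
    omega
  rw [Finset.sum_congr rfl h1, Finset.sum_const, Finset.card_range, smul_eq_mul]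
  have h2 : 1 ≤ L m := by unfold L; exact Nat.mul_pos (by positivity) (by omega)
  obtain ⟨q, hq⟩ : ∃ q, L m = q + 1 := ⟨L m - 1, by omega⟩
  have h3 : N m = 2 ^ (q + 1 + 2 * m + 2) := by unfold N; rw [hq]
  rw [h3]
  have h4 : L m = 2 ^ (m + 3) * (m + 1) := rfl
  rw [show L m * (2 ^ (L m - 1) * H m) = (2 ^ (m + 3) * (m + 1)) * (2 ^ (L m - 1) * H m) by
    rw [← h4]]
  rw [hq, Nat.add_sub_cancel]
  unfold H
  ring

/-- points for which stage `m` gives nothing -/
def Bad (m : ℕ) : Set X := {x | ∀ t, (x m).c t ∉ G m (dig m x) t}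

lemma nu_bad (m : ℕ) (b : Fin (L m) → Bool) :
    nu m {e | ∀ t, e.c t ∉ G m b t} ≤ ENNReal.ofReal (Real.exp (-((m : ℝ) + 1))) := by
  classical
  set D : Finset (C m) := Fintype.piFinset (fun t => (G m b t)ᶜ) with hD
  have h1 : {e : E m | ∀ t, e.c t ∉ G m b t} = {e | e.c ∈ D} := by
    ext e
    simp only [Set.mem_ofPred_eq, hD, Fintype.mem_piFinset, Finset.mem_compl]
  have hN0 : 0 < (N m : ℝ) := Nat.cast_pos.mpr (Nat.pos_of_ne_zero (NeZero.ne _))
  have hcard : (Fintype.card (C m) : ℝ) = ∏ _t : Fin (L m) → Bool, (N m : ℝ) := by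
    rw [card_C, Finset.prod_const, Finset.card_univ, Fintype.card_fun, Fintype.card_bool,
      Fintype.card_fin]
    push_cast; rfl
  have hcp : 0 < (Fintype.card (C m) : ℝ) := Nat.cast_pos.mpr Fintype.card_pos
  rw [h1, nu_rot]
  have h2 : ((D.card : ℝ≥0∞) / Fintype.card (C m)) =
      ENNReal.ofReal ((D.card : ℝ) / Fintype.card (C m)) := by
    rw [ENNReal.ofReal_div_of_pos hcp, ENNReal.ofReal_natCast, ENNReal.ofReal_natCast]
  rw [h2]
  apply ENNReal.ofReal_le_ofReal
  have h3 : (D.card : ℝ) = ∏ t : Fin (L m) → Bool, ((N m : ℝ) - (G m b t).card) := by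
    rw [hD, Fintype.card_piFinset]
    push_cast
    refine Finset.prod_congr rfl fun t _ => ?_
    rw [Finset.card_compl, ZMod.card, Nat.cast_sub]
    have h5 := Finset.card_le_univ (G m b t)
    rwa [ZMod.card] at h5
  have h4 : (D.card : ℝ) / Fintype.card (C m) =
      ∏ t : Fin (L m) → Bool, (1 - (G m b t).card / (N m : ℝ)) := by
    rw [h3, hcard, ← Finset.prod_div_distrib]
    refine Finset.prod_congr rfl fun t _ => ?_
    rw [sub_div, div_self hN0.ne']
  rw [h4]
  calc ∏ t : Fin (L m) → Bool, (1 - (G m b t).card / (N m : ℝ))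
      ≤ ∏ t : Fin (L m) → Bool, Real.exp (-((G m b t).card / (N m : ℝ))) := by
        refine Finset.prod_le_prod (fun t _ => ?_) (fun t _ => ?_)
        · rw [sub_nonneg, div_le_one hN0]
          have := Finset.card_le_univ (G m b t)
          rw [ZMod.card] at this
          exact_mod_cast this
        · have := Real.add_one_le_exp (-((G m b t).card / (N m : ℝ)))
          linarith
    _ = Real.exp (-((m : ℝ) + 1)) := by
        rw [← Real.exp_sum]
        congr 1
        rw [Finset.sum_neg_distrib, ← Finset.sum_div]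
        have := sum_card_G m b
        have h5 : (∑ t : Fin (L m) → Bool, ((G m b t).card : ℝ)) = ((m : ℝ) + 1) * N m := by
          exact_mod_cast this
        rw [h5, mul_div_assoc, div_self hN0.ne', mul_one]

lemma Bad_mass (m : ℕ) : mu (Bad m) ≤ ENNReal.ofReal (Real.exp (-((m : ℝ) + 1))) := by
  have h1 : Bad m = ⋃ b : Fin (L m) → Bool,
      {x : X | x m ∈ {e : E m | ∀ t, e.c t ∉ G m b t} ∧ dig m x = b} := by
    ext x
    simp only [Bad, Set.mem_iUnion, Set.mem_ofPred_eq]
    constructor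
    · intro h; exact ⟨dig m x, h, rfl⟩
    · rintro ⟨t, h, rfl⟩; exact h
  rw [h1]
  refine (measure_iUnion_le _).trans ?_
  rw [tsum_fintype]
  calc ∑ b : Fin (L m) → Bool, mu {x : X | x m ∈ {e : E m | ∀ t, e.c t ∉ G m b t} ∧ dig m x = b}
      ≤ ∑ b : Fin (L m) → Bool, ENNReal.ofReal (Real.exp (-((m : ℝ) + 1))) * 2⁻¹ ^ (L m) := by
        refine Finset.sum_le_sum fun b _ => ?_
        rw [mass1]
        gcongr
        exact nu_bad m b
    _ = _ := sum_digits m _

lemma ae_good : ∀ᵐ x ∂mu, ∀ᶠ m in atTop, x ∉ Bad m := by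
  refine ae_eventually_notMem ?_
  refine ne_top_of_le_ne_top ?_ (ENNReal.tsum_le_tsum Bad_mass)
  have hs : Summable (fun m : ℕ => Real.exp (-((m : ℝ) + 1))) := by
    have h : ∀ m : ℕ, Real.exp (-((m : ℝ) + 1)) = Real.exp (-1) * (Real.exp (-1)) ^ m := by
      intro m
      rw [← Real.exp_nat_mul, ← Real.exp_add]
      congr 1; ring
    simp_rw [h]
    refine (summable_geometric_of_lt_one (Real.exp_pos _).le ?_).mul_left _
    rw [Real.exp_lt_one_iff]; norm_num
  rw [← ENNReal.ofReal_tsum_of_nonneg (fun m => (Real.exp_pos _).le) hs]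
  exact ENNReal.ofReal_ne_top

/-- height of the bumps at stage `m` -/
noncomputable def hh (m : ℕ) : ℝ := ((m : ℝ) + 1) * 2 ^ (L m) * H m

/-- The function, with values in `[0,∞]`. -/
noncomputable def F (x : X) : ℝ≥0∞ := ∑' m, (S m).indicator (fun _ => ENNReal.ofReal (hh m)) x

/-- The function. -/
noncomputable def f (x : X) : ℝ := (F x).toReal

lemma F_meas : Measurable F := by
  unfold F
  exact Measurable.tsum fun m => measurable_const.indicator (S_meas m)

lemma F_int : ∫⁻ x, F x ∂mu ≠ ⊤ := by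
  unfold F
  rw [lintegral_tsum fun m => (measurable_const.indicator (S_meas m)).aemeasurable]
  have h1 : ∀ m, ∫⁻ x, (S m).indicator (fun _ => ENNReal.ofReal (hh m)) x ∂mu ≤
      ENNReal.ofReal (((m : ℝ) + 1) * (1/2) ^ (m + 2)) := by
    intro m
    rw [lintegral_indicator_const (S_meas m)]
    have hN0 : 0 < (N m : ℝ) := Nat.cast_pos.mpr (Nat.pos_of_ne_zero (NeZero.ne _))
    have h2 : (N m : ℝ≥0∞)⁻¹ = ENNReal.ofReal ((N m : ℝ)⁻¹) := by
      rw [ENNReal.ofReal_inv_of_pos hN0, ENNReal.ofReal_natCast]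
    calc ENNReal.ofReal (hh m) * mu (S m) ≤ ENNReal.ofReal (hh m) * (N m : ℝ≥0∞)⁻¹ := by
          gcongr; exact S_mass m
      _ = ENNReal.ofReal (hh m * (N m : ℝ)⁻¹) := by
          rw [h2, ← ENNReal.ofReal_mul (by unfold hh; positivity)]
      _ = _ := by
          congr 1
          unfold hh H N
          push_cast
          have : (2 : ℝ) ^ (L m + 2 * m + 2) = 2 ^ (L m) * 2 ^ m * 2 ^ (m + 2) := by
            rw [← pow_add, ← pow_add]; congr 1; omega
          rw [this]
          field_simp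
          rw [← mul_pow]; norm_num
  refine ne_top_of_le_ne_top ?_ (ENNReal.tsum_le_tsum h1)
  have hs : Summable (fun m : ℕ => ((m : ℝ) + 1) * (1/2) ^ (m + 2)) := by
    have h3 : Summable (fun m : ℕ => (m : ℝ) ^ 1 * (1/2 : ℝ) ^ m) :=
      summable_pow_mul_geometric_of_norm_lt_one 1 (by norm_num)
    have h4 : Summable (fun m : ℕ => (1/2 : ℝ) ^ m) := summable_geometric_two
    refine ((h3.add h4).mul_left (1/4)).congr fun m => ?_
    ring
  rw [← ENNReal.ofReal_tsum_of_nonneg (fun m => by positivity) hs]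
  exact ENNReal.ofReal_ne_top

lemma f_int : Integrable f mu :=
  integrable_toReal_of_lintegral_ne_top F_meas.aemeasurable F_int

lemma f_nonneg (x : X) : 0 ≤ f x := ENNReal.toReal_nonneg

lemma f_lower {m : ℕ} {x : X} (hx : x ∈ S m) (hF : F x ≠ ⊤) : hh m ≤ f x := by
  unfold f
  rw [← ENNReal.ofReal_le_iff_le_toReal hF]
  refine le_trans ?_ (ENNReal.le_tsum m)
  rw [Set.indicator_of_mem hx]

lemma ae_fin : ∀ᵐ x ∂mu, ∀ j : ℕ, F (T^[j] x) ≠ ⊤ := by
  rw [ae_all_iff]
  intro j
  have h1 : ∀ᵐ x ∂mu, F x ≠ ⊤ := by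
    filter_upwards [ae_lt_top F_meas F_int] with x hx using hx.ne
  exact (T_mp.iterate j).quasiMeasurePreserving.ae h1

attribute [local instance] PiNat.metricSpace

lemma ball_eq (x : X) (n : ℕ) :
    Metric.ball x ((1/2 : ℝ) ^ n) = {y | ∀ l < n + 1, y l ∈ ({x l} : Set (E l))} := by
  ext y
  rw [Metric.mem_ball]
  constructor
  · intro h l hl
    exact PiNat.apply_eq_of_dist_lt h (Nat.lt_succ_iff.mp hl)
  · intro h
    have h1 : y ∈ PiNat.cylinder x (n + 1) := by
      rw [PiNat.mem_cylinder_iff]; exact h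
    rw [PiNat.mem_cylinder_iff_dist_le] at h1
    refine lt_of_le_of_lt h1 ?_
    rw [pow_succ]
    have : (0:ℝ) < (1/2) ^ n := by positivity
    linarith

lemma ball_mass (x : X) (n q : ℕ) (d : ℕ → Bool) :
    mu {y | (∀ l < n + 1, y l ∈ ({x l} : Set (E l))) ∧
      ∀ l, n + 1 ≤ l → l < n + 1 + q → (y l).d = d l} =
    mu (Metric.ball x ((1/2 : ℝ) ^ n)) * 2⁻¹ ^ q := by
  rw [mass, ball_eq]
  have := mass (n + 1) 0 (fun l => {x l}) d
  rw [pow_zero, mul_one] at this
  rw [← this]
  congr 2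
  ext y
  simp only [Set.mem_ofPred_eq]
  constructor
  · rintro ⟨h, -⟩; exact h
  · intro h; exact ⟨h, fun l hl hl' => by omega⟩

lemma ball_pos (x : X) (n : ℕ) : mu (Metric.ball x ((1/2 : ℝ) ^ n)) ≠ 0 := by
  have := mass (n + 1) 0 (fun l => {x l}) (fun _ => false)
  rw [pow_zero, mul_one] at this
  have h2 : mu (Metric.ball x ((1/2 : ℝ) ^ n)) = ∏ l ∈ Finset.range (n+1), nu l {x l} := by
    rw [← this, ball_eq]
    congr 1
    ext y
    simp only [Set.mem_ofPred_eq]
    constructor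
    · intro h; exact ⟨h, fun l hl hl' => by omega⟩
    · rintro ⟨h, -⟩; exact h
  rw [h2, Finset.prod_ne_zero_iff]
  intro l _
  have h3 := nu_finset l {x l}
  rw [Finset.coe_singleton] at h3
  rw [h3]
  simp

lemma main_lower {m : ℕ} {x : X} (hx : x ∉ Bad m) :
    ∃ l v : ℕ, H m ≤ v ∧ (m : ℝ) + 1 ≤ ballErgAvg mu T f ((1/2) ^ (m + l + 1)) (v + 1) x := by
  classical
  simp only [Bad, Set.mem_ofPred_eq, not_forall, not_not] at hx
  obtain ⟨t, ht⟩ := hx
  unfold G at ht
  rw [Finset.mem_biUnion] at ht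
  obtain ⟨l, hl, hv⟩ := ht
  rw [Finset.mem_filter, Finset.mem_range] at hl
  obtain ⟨hl, hagree⟩ := hl
  rw [mem_J hl] at hv
  set v := ((x m).c t).val with hvdef
  refine ⟨l, v, ?_, ?_⟩
  · refine le_trans ?_ hv.1
    exact Nat.le_mul_of_pos_left _ (by positivity)
  set B := Metric.ball x ((1/2 : ℝ) ^ (m + l + 1)) with hB
  set q := L m - (l + 1) with hq
  set d : ℕ → Bool := fun j => if h : j - (m + 1) < L m then t ⟨j - (m + 1), h⟩ else false with hd
  set S' : Set X := {y | (∀ j < m + l + 1 + 1, y j ∈ ({x j} : Set (E j))) ∧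
      ∀ j, m + l + 1 + 1 ≤ j → j < m + l + 1 + 1 + q → (y j).d = d j} with hS'
  have hmass : mu S' = mu B * 2⁻¹ ^ q := ball_mass x (m + l + 1) q d
  have hSB : S' ⊆ B := by
    rw [hB, ball_eq]
    intro y hy
    exact hy.1
  have hS'm : MeasurableSet S' := by
    rw [hS']
    refine MeasurableSet.inter ?_ ?_
    · have : MeasurableSet B := Metric.isOpen_ball.measurableSet
      rw [hB, ball_eq] at this
      exact this
    · have h0 : {y : X | ∀ j, m + l + 1 + 1 ≤ j → j < m + l + 1 + 1 + q → (y j).d = d j} =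
          ⋂ j, ⋂ (_ : m + l + 1 + 1 ≤ j), ⋂ (_ : j < m + l + 1 + 1 + q),
            {y : X | (y j).d = d j} := by
        ext y
        simp only [Set.mem_iInter, Set.mem_ofPred_eq]
      change MeasurableSet {y : X | ∀ j, m + l + 1 + 1 ≤ j → j < m + l + 1 + 1 + q →
        (y j).d = d j}
      rw [h0]
      refine MeasurableSet.iInter fun j => MeasurableSet.iInter fun _ =>
        MeasurableSet.iInter fun _ => ?_
      exact (measurable_pi_apply j) (MeasurableSet.of_discrete (s := {e : E j | e.d = d j}))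
  have hSS : ∀ y ∈ S', T^[v] y ∈ S m := by
    intro y hy
    have hdig : dig m (T^[v] y) = t := by
      funext i
      unfold dig
      rw [(T_iter v y _).1]
      by_cases hi : (i : ℕ) ≤ l
      · have h1 := hy.1 (m + 1 + i) (by omega)
        rw [Set.mem_singleton_iff] at h1
        rw [h1, hagree i hi]
        rfl
      · have h1 := hy.2 (m + 1 + i) (by omega) (by have := i.2; omega)
        rw [h1, hd]
        simp only
        have h3 : m + 1 + (i : ℕ) - (m + 1) < L m := by have := i.2; omega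
        rw [dif_pos h3]
        congr 1
        ext
        simp
    unfold S
    rw [Set.mem_ofPred_eq, hdig, (T_iter v y m).2]
    have h1 := hy.1 m (by omega)
    rw [Set.mem_singleton_iff] at h1
    rw [h1, hvdef, ZMod.natCast_zmod_val, sub_self]
  -- lower bound for the integral
  have hBpos : 0 < mu.real B := by
    rw [Measure.real, ENNReal.toReal_pos_iff]
    exact ⟨pos_iff_ne_zero.mpr (ball_pos x _), measure_lt_top _ _⟩
  have hk : (0 : ℝ) < ((v + 1 : ℕ) : ℝ) := by positivity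
  have hAint : Integrable (ergAvg T f (v + 1)) mu := by
    unfold ergAvg
    refine Integrable.const_mul ?_ _
    refine integrable_finsetSum _ fun j _ => ?_
    exact (T_mp.iterate j).integrable_comp_of_integrable f_int
  have hlow : ∀ᵐ y ∂(mu.restrict B), S'.indicator (fun _ => ((v + 1 : ℕ) : ℝ)⁻¹ * hh m) y ≤
      ergAvg T f (v + 1) y := by
    refine ae_restrict_of_ae ?_
    filter_upwards [ae_fin] with y hy
    unfold ergAvg
    by_cases hyS : y ∈ S'
    · rw [Set.indicator_of_mem hyS]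
      refine mul_le_mul_of_nonneg_left ?_ (inv_nonneg.mpr hk.le)
      calc hh m ≤ f (T^[v] y) := f_lower (hSS y hyS) (hy v)
        _ ≤ _ := Finset.single_le_sum (f := fun j => f (T^[j] y)) (fun j _ => f_nonneg _)
          (Finset.mem_range.mpr (Nat.lt_succ_self v))
    · rw [Set.indicator_of_notMem hyS]
      exact mul_nonneg (inv_nonneg.mpr hk.le) (Finset.sum_nonneg fun j _ => f_nonneg _)
  have hint : ((v + 1 : ℕ) : ℝ)⁻¹ * hh m * (mu.real B * 2⁻¹ ^ q) ≤
      ∫ y in B, ergAvg T f (v + 1) y ∂mu := by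
    have h1 : ∫ y in B, S'.indicator (fun _ => ((v + 1 : ℕ) : ℝ)⁻¹ * hh m) y ∂mu =
        ((v + 1 : ℕ) : ℝ)⁻¹ * hh m * (mu.real B * 2⁻¹ ^ q) := by
      rw [integral_indicator_const _ hS'm, Measure.real, Measure.restrict_apply hS'm,
        Set.inter_eq_left.mpr hSB, hmass, ENNReal.toReal_mul, ENNReal.toReal_pow,
        ENNReal.toReal_inv, ENNReal.toReal_ofNat, smul_eq_mul, mul_comm]
      rfl
    rw [← h1]
    refine integral_mono_ae ?_ hAint.integrableOn hlow
    exact (integrable_const _).indicator hS'm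
  unfold ballErgAvg
  have hfin : (m : ℝ) + 1 ≤ ((v + 1 : ℕ) : ℝ)⁻¹ * hh m * 2⁻¹ ^ q := by
    have h1 : ((v + 1 : ℕ) : ℝ) ≤ 2 ^ (l + 1) * H m := by exact_mod_cast hv.2
    have h2 : hh m * 2⁻¹ ^ q = ((m : ℝ) + 1) * (2 ^ (l + 1) * H m) := by
      unfold hh
      have h3 : (2 : ℝ) ^ (L m) = 2 ^ (l + 1) * 2 ^ q := by
        rw [← pow_add]; congr 1; omega
      rw [h3, inv_pow]
      field_simp
    rw [mul_assoc, h2, ← div_eq_inv_mul, le_div_iff₀ hk]
    exact mul_le_mul_of_nonneg_left h1 (by positivity)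
  calc (m : ℝ) + 1 ≤ ((v + 1 : ℕ) : ℝ)⁻¹ * hh m * 2⁻¹ ^ q := hfin
    _ = (mu.real B)⁻¹ * (((v + 1 : ℕ) : ℝ)⁻¹ * hh m * (mu.real B * 2⁻¹ ^ q)) := by
        field_simp
    _ ≤ _ := mul_le_mul_of_nonneg_left hint (inv_nonneg.mpr hBpos.le)

lemma T_isometry : Isometry T := by
  refine Isometry.of_dist_eq fun x y => ?_
  by_cases hxy : x = y
  · rw [hxy, dist_self, dist_self]
  have hT : T x ≠ T y := by
    intro h
    apply hxy
    funext m
    exact (dec_bij m).1 (congrFun h m)
  rw [PiNat.dist_eq_of_ne hxy, PiNat.dist_eq_of_ne hT]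
  congr 1
  refine eq_of_forall_le_iff fun i => ?_
  rw [← PiNat.mem_cylinder_iff_le_firstDiff hT, ← PiNat.mem_cylinder_iff_le_firstDiff hxy,
    PiNat.mem_cylinder_iff, PiNat.mem_cylinder_iff]
  refine forall₂_congr fun j _ => ?_
  exact (dec_bij j).1.eq_iff

lemma diverge : ∀ᵐ x ∂mu, ∀ (M r₀ : ℝ) (K : ℕ), 0 < r₀ →
    ∃ (r : ℝ) (k : ℕ), 0 < r ∧ r < r₀ ∧ K ≤ k ∧ M ≤ ballErgAvg mu T f r k x := by
  filter_upwards [ae_good] with x hx M r₀ K hr
  obtain ⟨n, hn⟩ := exists_pow_lt_of_lt_one hr (by norm_num : (1/2 : ℝ) < 1)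
  obtain ⟨M', hM'⟩ := exists_nat_ge M
  have h1 : ∀ᶠ m : ℕ in atTop, n ≤ m ∧ K ≤ m ∧ M' ≤ m :=
    (eventually_ge_atTop n).and ((eventually_ge_atTop K).and (eventually_ge_atTop M'))
  obtain ⟨m, hbad, hnm, hKm, hMm⟩ := (hx.and h1).exists
  obtain ⟨l, v, hv, hU⟩ := main_lower hbad
  refine ⟨(1/2) ^ (m + l + 1), v + 1, by positivity, ?_, ?_, ?_⟩
  · refine lt_of_le_of_lt ?_ hn
    exact pow_le_pow_of_le_one (by norm_num) (by norm_num) (by omega)
  · have : m < 2 ^ m := Nat.lt_two_pow_self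
    have h3 : H m = 2 ^ m := rfl
    omega
  · refine le_trans hM' (le_trans ?_ hU)
    have : (M' : ℝ) ≤ m := by exact_mod_cast hMm
    linarith

end space

/-- The assertion of Q1 for all spaces in the universe `Type`. -/
def Q1 : Prop :=
  ∀ (Y : Type) [MetricSpace Y] [MeasurableSpace Y] [BorelSpace Y] (μ : Measure Y)
    [IsProbabilityMeasure μ] (S : Y → Y), MeasurePreserving S μ μ → HardyLittlewood μ →
    ∀ g : Y → ℝ, Integrable g μ →
      ∀ᵐ x ∂μ, Tendsto (fun p : ℝ × ℕ => ballErgAvg μ S g p.1 p.2 x) (𝓝[>] 0 ×ˢ atTop)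
        (𝓝 ((μ[g | MeasurableSpace.invariants S]) x))

/-- Q1 of MP_135240_an fails, on a compact ultrametric space and for an isometry `S`:
`limsup U_{r,k} g = ∞` almost everywhere. -/
theorem result : ¬ Q1 ∧
    ∃ (Y : Type) (_ : MetricSpace Y) (_ : MeasurableSpace Y) (_ : BorelSpace Y) (μ : Measure Y)
      (_ : IsProbabilityMeasure μ) (S : Y → Y) (g : Y → ℝ),
      CompactSpace Y ∧ (∀ x y z : Y, dist x z ≤ max (dist x y) (dist y z)) ∧ Isometry S ∧
      MeasurePreserving S μ μ ∧ HardyLittlewood μ ∧ (∀ x, 0 ≤ g x) ∧ Integrable g μ ∧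
      ∀ᵐ x ∂μ, ∀ (M r₀ : ℝ) (K : ℕ), 0 < r₀ →
        ∃ (r : ℝ) (k : ℕ), 0 < r ∧ r < r₀ ∧ K ≤ k ∧ M ≤ ballErgAvg μ S g r k x := by
  have hex : ∃ (Y : Type) (_ : MetricSpace Y) (_ : MeasurableSpace Y) (_ : BorelSpace Y)
      (μ : Measure Y) (_ : IsProbabilityMeasure μ) (S : Y → Y) (g : Y → ℝ),
      CompactSpace Y ∧ (∀ x y z : Y, dist x z ≤ max (dist x y) (dist y z)) ∧ Isometry S ∧
      MeasurePreserving S μ μ ∧ HardyLittlewood μ ∧ (∀ x, 0 ≤ g x) ∧ Integrable g μ ∧
      ∀ᵐ x ∂μ, ∀ (M r₀ : ℝ) (K : ℕ), 0 < r₀ →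
        ∃ (r : ℝ) (k : ℕ), 0 < r ∧ r < r₀ ∧ K ≤ k ∧ M ≤ ballErgAvg μ S g r k x :=
    ⟨X, PiNat.metricSpace, inferInstance, inferInstance, mu, inferInstance, T, f,
      inferInstance, fun x y z => PiNat.dist_triangle_nonarch x y z, T_isometry, T_mp,
      @hl_of_ultra X PiNat.metricSpace _ _ _ (fun x y z => PiNat.dist_triangle_nonarch x y z) mu _,
      f_nonneg, f_int, diverge⟩
  refine ⟨fun hQ => ?_, hex⟩
  obtain ⟨Y, i1, i2, i3, μ, i4, S, g, -, -, -, h1, h2, -, h3, h4⟩ := hex
  have h5 := hQ Y μ S h1 h2 g h3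
  obtain ⟨x, hx1, hx2⟩ := (h5.and h4).exists
  set c := (μ[g | MeasurableSpace.invariants S]) x
  have h6 : ∀ᶠ p : ℝ × ℕ in 𝓝[>] 0 ×ˢ atTop, ballErgAvg μ S g p.1 p.2 x < c + 1 :=
    hx1.eventually (gt_mem_nhds (by linarith))
  rw [eventually_prod_iff] at h6
  obtain ⟨pa, hpa, pb, hpb, h7⟩ := h6
  rw [eventually_nhdsWithin_iff, Metric.eventually_nhds_iff] at hpa
  obtain ⟨r₀, hr₀, hpa⟩ := hpa
  rw [eventually_atTop] at hpb
  obtain ⟨K, hK⟩ := hpb
  obtain ⟨r, k, hr, hr', hk, hM⟩ := hx2 (c + 1) r₀ K hr₀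
  have h8 := h7 (hpa (y := r) (by rw [Real.dist_eq, sub_zero, abs_of_pos hr]; exact hr') hr)
    (hK k hk)
  simp only at h8
  linarith

end Pool.Agent.Results.MP_135240_an.ErgodicDifferentiation
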